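import Pool.Agent.W587.LiF

/-!
# Logarithmic coefficients for general half planes
-/

set_option autoImplicit false

open Complex Filter Topology Metric Set Polynomial

namespace Pool.Agent.W587.LM
open Pool.Agent.W587.Li

/-- the conformal map of the unit disc onto the half plane `Re s > A - B / 2`, `0 ↦ A` -/
noncomputable def vv (A B : ℝ) (z : ℂ) : ℂ := A + B * z / (1 - z)

theorem vv_zero (A B : ℝ) : vv A B 0 = A := by simp [vv]

theorem vv_analytic (A B : ℝ) {z : ℂ} (hz : z ≠ 1) : AnalyticAt ℂ (vv A B) z := by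
  unfold vv
  have h : 1 - z ≠ 0 := sub_ne_zero.2 (Ne.symm hz)
  fun_prop (disch := assumption)

theorem ball_ne_one {z : ℂ} (hz : z ∈ ball (0 : ℂ) 1) : z ≠ 1 := by
  rintro rfl
  simp at hz

/-- the image of the disc is in the half plane -/
theorem vv_re {A B : ℝ} (hB : 0 < B) {z : ℂ} (hz : z ∈ ball (0 : ℂ) 1) : A - B / 2 < (vv A B z).re := by
  have hz1 : 1 - z ≠ 0 := sub_ne_zero.2 (Ne.symm (ball_ne_one hz))
  have hn : Complex.normSq z < 1 := by
    rw [Complex.normSq_eq_norm_sq]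
    have : ‖z‖ < 1 := by simpa using hz
    nlinarith [norm_nonneg z]
  have h1 : vv A B z = ((A - B / 2 : ℝ) : ℂ) + ((B / 2 : ℝ) : ℂ) * ((1 + z) / (1 - z)) := by
    unfold vv
    push_cast
    field_simp
    ring
  have h2 : 0 < ((1 + z) / (1 - z)).re := by
    rw [Complex.div_re, ← add_div]
    refine div_pos ?_ (Complex.normSq_pos.2 hz1)
    rw [Complex.normSq_apply] at hn
    simp
    nlinarith
  rw [h1, Complex.add_re, Complex.ofReal_re, Complex.re_ofReal_mul]
  have : 0 < B / 2 * ((1 + z) / (1 - z)).re := by positivity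
  linarith

/-- every point of the half plane is in the image -/
theorem vv_surj {A B : ℝ} (hB : 0 < B) {s : ℂ} (hs : A - B / 2 < s.re) :
    ∃ z ∈ ball (0 : ℂ) 1, vv A B z = s := by
  have hd : s - A + B ≠ 0 := by
    intro h
    have := congrArg Complex.re h
    simp at this
    linarith
  refine ⟨(s - A) / (s - A + B), ?_, ?_⟩
  · rw [mem_ball_zero_iff, norm_div, div_lt_one (norm_pos_iff.2 hd),
      ← sq_lt_sq₀ (norm_nonneg _) (norm_nonneg _), ← Complex.normSq_eq_norm_sq,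
      ← Complex.normSq_eq_norm_sq, Complex.normSq_apply, Complex.normSq_apply]
    simp
    nlinarith
  · unfold vv
    have h1 : (1 - (s - A) / (s - A + B) : ℂ) = B / (s - A + B) := by
      field_simp
      ring
    have hB' : (B : ℂ) ≠ 0 := by exact_mod_cast hB.ne'
    rw [h1]
    field_simp
    ring

theorem lc_one_sub_inv (k : ℕ) : lc (fun z : ℂ => (1 - z)⁻¹) k = 1 := by
  have h1 : AnalyticAt ℂ (fun z : ℂ => 1 - z) 0 := by fun_prop
  have h2 : AnalyticAt ℂ (fun z : ℂ => (1 - z)⁻¹) 0 := h1.inv (by norm_num)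
  have h3 := lc_mul h1 h2 (by norm_num) (by norm_num) k
  have h4 : lc (fun z : ℂ => (1 - z) * (1 - z)⁻¹) k = 0 := by
    rw [← lc_const 1 k]
    refine lc_congr ?_ k
    have : ∀ᶠ z in 𝓝 (0 : ℂ), (1 - z) ≠ 0 := h1.continuousAt.eventually_ne (by norm_num)
    filter_upwards [this] with z hz
    exact mul_inv_cancel₀ hz
  have h5 : lc (fun z : ℂ => 1 - z) k = -1 := by
    have h6 : (fun z : ℂ => 1 - z) = fun z => (-1) * (z - 1) := by ext z; ring
    rw [h6, lc_mul (f := fun _ => -1) (g := fun z => z - 1) analyticAt_const (by fun_prop) (by norm_num)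
      (by norm_num), lc_const, lc_sub 1 one_ne_zero]
    simp
  rw [h4, h5] at h3
  linear_combination -h3

theorem lc_affine (a b : ℂ) (ha : a ≠ 0) (k : ℕ) : lc (fun z => a - b * z) k = -(b / a) ^ (k + 1) := by
  by_cases hb : b = 0
  · subst hb
    have : (fun z : ℂ => a - 0 * z) = fun _ => a := by ext z; ring
    rw [this, lc_const, zero_div, zero_pow (Nat.succ_ne_zero k), neg_zero]
  · have h6 : (fun z : ℂ => a - b * z) = fun z => (-b) * (z - a / b) := by
      ext z
      field_simp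
      ring
    have hab : a / b ≠ 0 := div_ne_zero ha hb
    rw [h6, lc_mul (f := fun _ => -b) (g := fun z => z - a / b) analyticAt_const (by fun_prop)
      (neg_ne_zero.2 hb) (by simpa using hab), lc_const, lc_sub _ hab, inv_div, zero_add]

theorem lc_vv {A B : ℝ} (hB : 0 < B) {v0 : ℂ} (h : v0.re ≤ A - B / 2) (k : ℕ) :
    vv A B 0 - v0 ≠ 0 ∧ AnalyticAt ℂ (fun z => vv A B z - v0) 0 ∧
      0 ≤ (lc (fun z => vv A B z - v0) k).re := by
  have ha : (A : ℂ) - v0 ≠ 0 := by
    intro h1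
    have := congrArg Complex.re h1
    simp at this
    linarith
  have han : AnalyticAt ℂ (fun z => vv A B z - v0) 0 := (vv_analytic A B zero_ne_one).sub analyticAt_const
  refine ⟨by rwa [vv_zero], han, ?_⟩
  have h1 : (fun z => vv A B z - v0) =ᶠ[𝓝 0]
      fun z => ((A - v0) - (A - v0 - B) * z) * (1 - z)⁻¹ := by
    have : ∀ᶠ z in 𝓝 (0 : ℂ), (1 - z) ≠ 0 := by
      have hc : ContinuousAt (fun z : ℂ => 1 - z) 0 := by fun_prop
      exact hc.eventually_ne (by norm_num)
    filter_upwards [this] with z hz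
    unfold vv
    field_simp
    ring
  have h2 : AnalyticAt ℂ (fun z : ℂ => (1 - z)⁻¹) 0 := AnalyticAt.inv (by fun_prop) (by norm_num)
  rw [lc_congr h1 k, lc_mul (f := fun z => (A - v0) - (A - v0 - B) * z) (g := fun z => (1 - z)⁻¹)
    (by fun_prop) h2 (by simpa using ha) (by norm_num), lc_affine _ _ ha, lc_one_sub_inv]
  have h3 : ‖((A : ℂ) - v0 - B) / (A - v0)‖ ≤ 1 := by
    rw [norm_div, div_le_one (norm_pos_iff.2 ha), ← sq_le_sq₀ (norm_nonneg _) (norm_nonneg _),
      ← Complex.normSq_eq_norm_sq, ← Complex.normSq_eq_norm_sq, Complex.normSq_apply,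
      Complex.normSq_apply]
    simp
    nlinarith
  have h4 : ((((A : ℂ) - v0 - B) / (A - v0)) ^ (k + 1)).re ≤ 1 := by
    refine (Complex.re_le_norm _).trans ?_
    rw [norm_pow]
    exact pow_le_one₀ (norm_nonneg _) h3
  simp only [Complex.add_re, Complex.neg_re, Complex.one_re]
  linarith

theorem lc_multiset_gen {W : ℂ → ℂ} (hW : AnalyticAt ℂ W 0) (k : ℕ) (s : Multiset ℂ)
    (hs : ∀ a ∈ s, W 0 - a ≠ 0 ∧ 0 ≤ (lc (fun z => W z - a) k).re) :
    AnalyticAt ℂ (fun z => (s.map (fun a => W z - a)).prod) 0 ∧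
    (s.map (fun a => W 0 - a)).prod ≠ 0 ∧
    0 ≤ (lc (fun z => (s.map (fun a => W z - a)).prod) k).re := by
  induction s using Multiset.induction_on with
  | empty =>
    refine ⟨by simpa using analyticAt_const, by simp, ?_⟩
    simp only [Multiset.map_zero, Multiset.prod_zero]
    rw [lc_const]
    simp
  | cons a s ih =>
    obtain ⟨h1, h2, h3⟩ := ih fun b hb => hs b (Multiset.mem_cons_of_mem hb)
    obtain ⟨hW0, h4⟩ := hs a (Multiset.mem_cons_self a s)
    have hWa : AnalyticAt ℂ (fun z => W z - a) 0 := hW.sub analyticAt_const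
    simp only [Multiset.map_cons, Multiset.prod_cons]
    refine ⟨hWa.mul h1, mul_ne_zero hW0 h2, ?_⟩
    rw [lc_mul hWa h1 hW0 h2, Complex.add_re]
    linarith

theorem lc_poly_gen {W : ℂ → ℂ} (hW : AnalyticAt ℂ W 0) (P : ℝ[X]) (hP : P ≠ 0) (k : ℕ)
    (hs : ∀ a : ℂ, aeval a P = 0 → W 0 - a ≠ 0 ∧ 0 ≤ (lc (fun z => W z - a) k).re) :
    0 ≤ (lc (fun z => aeval (W z) P) k).re := by
  set Q : ℂ[X] := P.map (algebraMap ℝ ℂ) with hQ
  have hQ0 : Q ≠ 0 := (Polynomial.map_ne_zero_iff (algebraMap ℝ ℂ).injective).2 hP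
  have hev : ∀ x : ℂ, aeval x P = Q.leadingCoeff * (Q.roots.map (fun a => x - a)).prod := by
    intro x
    have h1 : aeval x P = Q.eval x := by rw [hQ, Polynomial.eval_map_algebraMap]
    rw [h1]
    conv_lhs => rw [(IsAlgClosed.splits Q).eq_prod_roots]
    rw [Polynomial.eval_mul, Polynomial.eval_C, Polynomial.eval_multiset_prod, Multiset.map_map]
    congr 2
    refine Multiset.map_congr rfl fun a _ => ?_
    simp
  have hroots : ∀ a ∈ Q.roots, W 0 - a ≠ 0 ∧ 0 ≤ (lc (fun z => W z - a) k).re := by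
    intro a ha
    refine hs a ?_
    have := (Polynomial.mem_roots hQ0).1 ha
    rw [Polynomial.IsRoot.def] at this
    rw [← this, hQ, Polynomial.eval_map_algebraMap]
  obtain ⟨h1, h2, h3⟩ := lc_multiset_gen hW k Q.roots hroots
  have h4 : (fun z => aeval (W z) P) =
      fun z => Q.leadingCoeff * (Q.roots.map (fun a => W z - a)).prod := by
    ext z
    exact hev _
  rw [h4, lc_mul analyticAt_const h1 (Polynomial.leadingCoeff_ne_zero.2 hQ0) h2, lc_const, zero_add]
  exact h3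

/-- **Positivity.**  `F` entire of order less than one, real; the zeros of `F (v ^ 2)` are in
`Re v ≤ A - B / 2`. -/
theorem pos_gen {F : ℂ → ℂ} {K : ℝ} (hd : Differentiable ℂ F) (h0 : F 0 ≠ 0)
    (hc : ∀ x, F ((starRingEnd ℂ) x) = (starRingEnd ℂ) (F x))
    (hK : ∀ x, ‖F x‖ ≤ Real.exp (K * (1 + ‖x‖) ^ (3 / 4 : ℝ))) {A B : ℝ} (hB : 0 < B)
    (hfree : ∀ v : ℂ, F (v ^ 2) = 0 → v.re ≤ A - B / 2) (k : ℕ) :
    F (vv A B 0 ^ 2) ≠ 0 ∧ 0 ≤ (lc (fun z => F (vv A B z ^ 2)) k).re := by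
  have hne : F (vv A B 0 ^ 2) ≠ 0 := by
    intro h
    have := hfree _ h
    rw [vv_zero, Complex.ofReal_re] at this
    linarith
  refine ⟨hne, ?_⟩
  obtain ⟨P, hP, hlim⟩ := Pool.Agent.H24R2.JP.had F K hd h0 hc hK
  have hPne : ∀ N, P N ≠ 0 := by
    intro N h
    have := hP N 0 (by rw [h]; simp)
    exact h0 this
  have hWd : ∀ z ∈ ball (0 : ℂ) 1, AnalyticAt ℂ (fun z => vv A B z ^ 2) z := fun z hz =>
    (vv_analytic A B (ball_ne_one hz)).pow 2
  have hlim2 : TendstoLocallyUniformlyOn (fun (N : ℕ) (z : ℂ) => aeval (vv A B z ^ 2) (P N))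
      (fun z => F (vv A B z ^ 2)) atTop (ball (0 : ℂ) 1) := by
    have h1 := (tendstoLocallyUniformlyOn_univ.2 hlim).comp (t := ball (0 : ℂ) 1)
      (fun z => vv A B z ^ 2)
      (fun _ _ => Set.mem_univ _) (fun z hz => (hWd z hz).continuousAt.continuousWithinAt)
    exact h1
  have hdiff : ∀ N, DifferentiableOn ℂ (fun z => aeval (vv A B z ^ 2) (P N)) (ball (0 : ℂ) 1) := by
    intro N z hz
    refine DifferentiableAt.differentiableWithinAt ?_
    exact (Polynomial.differentiable_aeval (P N)).differentiableAt.comp z (hWd z hz).differentiableAt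
  have ht := lc_tendsto isOpen_ball (mem_ball_self one_pos) hdiff hlim2 hne k
  have hre := (Complex.continuous_re.tendsto _).comp ht
  refine ge_of_tendsto' hre fun N => ?_
  refine lc_poly_gen (hWd 0 (mem_ball_self one_pos)) (P N) (hPne N) k fun a ha => ?_
  have h1 := hP N a ha
  obtain ⟨v, hv⟩ : ∃ v : ℂ, v ^ 2 = a := ⟨a ^ (1 / 2 : ℂ), by
    rw [← Complex.cpow_nat_mul]
    norm_num⟩
  have h2 : v.re ≤ A - B / 2 := hfree v (by rw [hv]; exact h1)
  have h3 : (-v).re ≤ A - B / 2 := hfree (-v) (by rw [neg_sq, hv]; exact h1)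
  obtain ⟨p1, p2, p3⟩ := lc_vv hB h2 k
  obtain ⟨q1, q2, q3⟩ := lc_vv hB h3 k
  have h4 : (fun z => vv A B z ^ 2 - a) = fun z => (vv A B z - v) * (vv A B z - -v) := by
    ext z
    rw [← hv]
    ring
  have h5 : vv A B 0 ^ 2 - a = (vv A B 0 - v) * (vv A B 0 - -v) := congrFun h4 0
  rw [h4, h5]
  refine ⟨mul_ne_zero p1 q1, ?_⟩
  rw [lc_mul p2 q2 p1 q1, Complex.add_re]
  linarith

end Pool.Agent.W587.LM
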