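import Pool.Agent.W587.LM.A
import Pool.Agent.W173.OS.G

/-!
# Li type coefficients for half planes
-/

set_option autoImplicit false

open Complex Filter Topology Metric Set Polynomial

namespace Pool.Agent.W587.LM
open Pool.Agent.W587.Li

theorem iter_affine {H : ℂ → ℂ} {A B : ℂ} (hH : AnalyticAt ℂ H A) (k : ℕ) :
    iteratedDeriv k (fun s => H (A + B * (s - 1))) =ᶠ[𝓝 1]
      fun s => B ^ k * iteratedDeriv k H (A + B * (s - 1)) := by
  have ht : Tendsto (fun s : ℂ => A + B * (s - 1)) (𝓝 1) (𝓝 A) := by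
    have : ContinuousAt (fun s : ℂ => A + B * (s - 1)) 1 := by fun_prop
    have h2 := this.tendsto
    simpa using h2
  have hder : ∀ s : ℂ, HasDerivAt (fun s : ℂ => A + B * (s - 1)) B s := by
    intro s
    have := (((hasDerivAt_id s).sub_const 1).const_mul B).const_add A
    simpa using this
  induction k with
  | zero =>
    refine Filter.Eventually.of_forall fun s => ?_
    simp
  | succ k ih =>
    filter_upwards [ih.deriv, ht.eventually hH.eventually_analyticAt] with s hs ha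
    have ha2 : AnalyticAt ℂ (iteratedDeriv k H) (A + B * (s - 1)) := by
      rw [iteratedDeriv_eq_iterate]
      exact ha.iterated_deriv k
    rw [iteratedDeriv_succ, hs]
    have h2 := ((ha2.differentiableAt.hasDerivAt).comp s (hder s)).const_mul (B ^ k)
    have h3 : (fun s => B ^ k * iteratedDeriv k H (A + B * (s - 1))) =
        fun s => B ^ k * (iteratedDeriv k H ∘ fun s => A + B * (s - 1)) s := rfl
    rw [h3, h2.deriv, ← iteratedDeriv_succ]
    ring

theorem lc_deriv {g : ℂ → ℂ} {A B : ℝ} (hB : 0 < B) (hg : AnalyticAt ℂ g (A : ℂ))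
    (hs : g (A : ℂ) ∈ slitPlane) (k : ℕ) :
    lc (fun z => g (vv A B z)) k =
      B * iteratedDeriv (k + 1) (fun s => (s - A + B) ^ k * Complex.log (g s)) (A : ℂ) /
        (k.factorial : ℂ) := by
  have hB' : (B : ℂ) ≠ 0 := by exact_mod_cast hB.ne'
  have hlog : AnalyticAt ℂ (fun s => Complex.log (g s)) (A : ℂ) := hg.clog hs
  have hv : AnalyticAt ℂ (vv A B) 0 := vv_analytic A B zero_ne_one
  have hgv : AnalyticAt ℂ (fun z => g (vv A B z)) 0 := by
    refine AnalyticAt.fun_comp ?_ hv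
    rw [vv_zero]
    exact hg
  -- the function of `1 / (1 - z)`
  set f : ℂ → ℂ := fun s => Complex.log (g (A + B * (s - 1))) with hf
  have hfa : AnalyticAt ℂ f 1 := by
    have h1 : AnalyticAt ℂ (fun s : ℂ => (A : ℂ) + B * (s - 1)) 1 := by fun_prop
    have h2 : (A : ℂ) + B * ((1 : ℂ) - 1) = A := by ring
    have h3 : AnalyticAt ℂ (fun s => Complex.log (g s)) ((A : ℂ) + B * ((1 : ℂ) - 1)) := by
      rw [h2]
      exact hlog
    exact AnalyticAt.fun_comp (g := fun s => Complex.log (g s)) h3 h1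
  have h1 := (transfer hfa k).self_of_nhds
  simp only [sub_zero, div_one, one_pow, one_mul] at h1
  have hne : ∀ᶠ z in 𝓝 (0 : ℂ), z ≠ 1 := isOpen_ne.mem_nhds zero_ne_one
  have h2 : (fun z : ℂ => f (1 / (1 - z))) =ᶠ[𝓝 0] fun z => Complex.log (g (vv A B z)) := by
    filter_upwards [hne] with z hz
    have hz1 : 1 - z ≠ 0 := sub_ne_zero.2 (Ne.symm hz)
    have : (A : ℂ) + B * (1 / (1 - z) - 1) = vv A B z := by
      unfold vv
      field_simp
      ring
    rw [hf]
    simp only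
    rw [this]
  have h3 : deriv (fun z => Complex.log (g (vv A B z))) =ᶠ[𝓝 0]
      fun z => deriv (fun z => g (vv A B z)) z / g (vv A B z) := by
    have h0 : g (vv A B 0) ∈ slitPlane := by rwa [vv_zero]
    filter_upwards [hgv.eventually_analyticAt,
      hgv.continuousAt.eventually_mem (isOpen_slitPlane.mem_nhds h0)] with z hz1 hz2
    exact ((hz1.differentiableAt.hasDerivAt).clog hz2).deriv
  have h4 : (fun s : ℂ => s ^ k * f s) = fun s => (fun u : ℂ => (B : ℂ)⁻¹ ^ k *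
      ((u - A + B) ^ k * Complex.log (g u))) (A + B * (s - 1)) := by
    ext s
    simp only [hf]
    have : (A + B * (s - 1) - A + B : ℂ) = B * s := by ring
    rw [this, mul_pow, ← mul_assoc, ← mul_assoc, ← mul_pow, inv_mul_cancel₀ hB', one_pow, one_mul]
  have hH : AnalyticAt ℂ (fun u : ℂ => (B : ℂ)⁻¹ ^ k * ((u - A + B) ^ k * Complex.log (g u))) (A : ℂ) := by
    refine AnalyticAt.mul analyticAt_const (AnalyticAt.mul ?_ hlog)
    fun_prop
  have h5 := (iter_affine (A := (A : ℂ)) (B := (B : ℂ)) hH (k + 1)).self_of_nhds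
  rw [← h4] at h5
  simp only [sub_self, mul_zero, add_zero] at h5
  unfold lc
  rw [← h3.iteratedDeriv_eq k, ← iteratedDeriv_succ', ← h2.iteratedDeriv_eq (k + 1), h1, h5]
  rw [iteratedDeriv_const_mul_field]
  have h6 : (B : ℂ) ^ (k + 1) * ((B : ℂ)⁻¹ ^ k * iteratedDeriv (k + 1)
      (fun u : ℂ => (u - A + B) ^ k * Complex.log (g u)) (A : ℂ)) =
      B * iteratedDeriv (k + 1) (fun u : ℂ => (u - A + B) ^ k * Complex.log (g u)) (A : ℂ) := by
    rw [inv_pow, pow_succ]
    field_simp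
  rw [h6]

/-- the growth criterion along a set of Bohr recurrence -/
theorem growth_gen {φ : ℂ → ℂ} (hφ : AnalyticOnNhd ℂ φ (ball 0 1)) (h0 : φ 0 ≠ 0) {S : Set ℕ}
    (hS : BohrRecurrent S) :
    (∀ z ∈ ball (0 : ℂ) 1, φ z ≠ 0) ↔
      ∀ R : ℝ, 1 < R → ∃ C : ℝ, ∀ k : ℕ, k + 1 ∈ S → -(C * R ^ (k + 1)) ≤ (lc φ k).re := by
  constructor
  · intro h R hR
    have hdiff : DifferentiableOn ℂ (fun z => deriv φ z / φ z) (ball 0 1) := by
      intro z hz
      exact ((hφ z hz).deriv.div (hφ z hz) (h z hz)).differentiableAt.differentiableWithinAt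
    obtain ⟨C, hC0, hC⟩ := coeff_bound one_pos hdiff R (by rwa [div_one])
    refine ⟨C / R, fun k _ => ?_⟩
    have h1 : |(lc φ k).re| ≤ C * R ^ k := (Complex.abs_re_le_norm _).trans (hC k)
    have h2 : C / R * R ^ (k + 1) = C * R ^ k := by
      rw [pow_succ]
      field_simp
    rw [h2]
    exact (abs_le.1 h1).1
  · intro h z1 hz1 hz0
    obtain ⟨R, hR, U, hU, N, hN⟩ := neg_coeff hφ h0 one_pos le_rfl z1
      (by simpa using hz1) hz0
    rw [div_one] at hR
    obtain ⟨Q, hQ1, hQ2⟩ := exists_between hR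
    have hQ0 : 0 < Q := lt_trans (by positivity) hQ1
    obtain ⟨C, hC⟩ := h Q hQ1
    have hlim : Tendsto (fun n : ℕ => (R / Q) ^ n) atTop atTop :=
      tendsto_pow_atTop_atTop_of_one_lt ((one_lt_div hQ0).2 hQ2)
    obtain ⟨M, hM⟩ := Filter.eventually_atTop.1 (hlim.eventually_gt_atTop C)
    obtain ⟨n, hn, hNn, hnU⟩ := hS.finset U hU (ε := 1 / 2) (by norm_num) (N + M + 1)
    obtain ⟨k, rfl⟩ : ∃ k, n = k + 1 := ⟨n - 1, by omega⟩
    have h1 := hN k (by omega) (fun u hu => (hnU u hu).le)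
    have h2 := hC k hn
    have h3 := hM (k + 1) (by omega)
    rw [div_pow, lt_div_iff₀ (pow_pos hQ0 _)] at h3
    linarith

theorem free_of_pos {φ : ℂ → ℂ} (hφ : AnalyticOnNhd ℂ φ (ball 0 1)) (h0 : φ 0 ≠ 0) {S : Set ℕ}
    (hS : BohrRecurrent S) (h : ∀ k : ℕ, k + 1 ∈ S → 0 ≤ (lc φ k).re) :
    ∀ z ∈ ball (0 : ℂ) 1, φ z ≠ 0 := by
  rw [growth_gen hφ h0 hS]
  intro R _
  refine ⟨0, fun k hk => ?_⟩
  rw [zero_mul, neg_zero]
  exact h k hk

end Pool.Agent.W587.LM
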