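import Pool.Agent.W587.LM.B

/-!
# The Mertens function and Li type coefficients along thin sets
-/

set_option autoImplicit false

open Complex Filter Topology Metric Set

namespace Pool.Agent.W587.LM
open Pool.Agent.W587.Li
open Pool.Agent.H24R2.JP (XX FF)

/-- Li type coefficients for the half plane `Re s > 1 - b / 2` -/
noncomputable def lam (b : ℝ) (n : ℕ) : ℝ :=
  (iteratedDeriv n (fun s : ℂ => (s - 1 + b) ^ (n - 1) * Complex.log (xi s)) 1).re / (n - 1).factorial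

/-- The Mertens function. -/
noncomputable def M (x : ℝ) : ℝ := ∑ n ∈ Finset.Icc 1 ⌊x⌋₊, ((ArithmeticFunction.moebius n : ℤ) : ℝ)

theorem phb_analytic (b : ℝ) : AnalyticOnNhd ℂ (fun z => xi (vv 1 b z)) (ball 0 1) := by
  intro z hz
  exact AnalyticAt.fun_comp (xi_diff.analyticAt _) (vv_analytic 1 b (ball_ne_one hz))

theorem phb_ne (b : ℝ) : (fun z => xi (vv 1 b z)) 0 ≠ 0 := by
  simp only [vv_zero, Complex.ofReal_one, xi_one]
  norm_num

theorem lam_eq {b : ℝ} (hb : 0 < b) (k : ℕ) : b * lam b (k + 1) = (lc (fun z => xi (vv 1 b z)) k).re := by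
  have h := lc_deriv (g := xi) (A := 1) hb (xi_diff.analyticAt _) (by
    rw [Complex.ofReal_one, xi_one]
    left
    norm_num) k
  rw [h, Complex.div_natCast_re, Complex.re_ofReal_mul]
  unfold lam
  rw [Nat.add_sub_cancel, Complex.ofReal_one, mul_div_assoc]

theorem xi_half_free {b : ℝ} (hb1 : b ≤ 1) :
    (∀ s : ℂ, 1 - b / 2 < s.re → riemannZeta s ≠ 0) ↔ ∀ ρ : ℂ, xi ρ = 0 → ρ.re ≤ 1 - b / 2 := by
  have hxi : ∀ s : ℂ, s ≠ 0 → s ≠ 1 → xi s = s * (s - 1) / 2 * completedRiemannZeta s := by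
    intro s h0 h1
    have h2 : 1 - s ≠ 0 := sub_ne_zero.2 (Ne.symm h1)
    rw [completedRiemannZeta_eq]
    unfold xi
    field_simp
    ring
  constructor
  · intro h ρ hρ
    by_contra hc
    push Not at hc
    have h0 : ρ ≠ 0 := by
      rintro rfl
      rw [xi_zero] at hρ
      norm_num at hρ
    have h1 : ρ ≠ 1 := by
      rintro rfl
      rw [xi_one] at hρ
      norm_num at hρ
    refine h ρ hc ?_
    rw [hxi ρ h0 h1] at hρ
    have h3 : completedRiemannZeta ρ = 0 := by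
      rcases mul_eq_zero.1 hρ with h4 | h4
      · exfalso
        rcases div_eq_zero_iff.1 h4 with h5 | h5
        · rcases mul_eq_zero.1 h5 with h6 | h6
          · exact h0 h6
          · exact h1 (sub_eq_zero.1 h6)
        · norm_num at h5
      · exact h4
    rw [riemannZeta_def_of_ne_zero h0, h3, zero_div]
  · intro h s hs hz
    have h0 : s ≠ 0 := by
      rintro rfl
      simp at hs
      linarith
    have h1 : s ≠ 1 := by
      rintro rfl
      exact riemannZeta_one_ne_zero hz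
    have h3 : completedRiemannZeta s = 0 := by
      rw [riemannZeta_def_of_ne_zero h0] at hz
      have h3 : Gammaℝ s ≠ 0 := Gammaℝ_ne_zero_of_re_pos (by linarith)
      rcases div_eq_zero_iff.1 hz with h4 | h4
      · exact h4
      · exact absurd h4 h3
    have := h s (by rw [hxi s h0 h1, h3, mul_zero])
    linarith

theorem free_iff_disc {b : ℝ} (hb : 0 < b) :
    (∀ ρ : ℂ, xi ρ = 0 → ρ.re ≤ 1 - b / 2) ↔ ∀ z ∈ ball (0 : ℂ) 1, (fun z => xi (vv 1 b z)) z ≠ 0 := by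
  constructor
  · intro h z hz h0
    have h1 := h _ h0
    have h2 := vv_re (A := 1) hb hz
    linarith
  · intro h ρ hρ
    by_contra hc
    push Not at hc
    obtain ⟨z, hz, hzz⟩ := vv_surj (A := 1) hb hc
    exact h z hz (by simp only [hzz, hρ])

theorem pos_of_free {b : ℝ} (hb : 0 < b) (h : ∀ ρ : ℂ, xi ρ = 0 → ρ.re ≤ 1 - b / 2) (k : ℕ) :
    0 ≤ (lc (fun z => xi (vv 1 b z)) k).re := by
  obtain ⟨hd, hF, hc, hi⟩ := Pool.Agent.H24R2.JP.b1
  obtain ⟨K, hK⟩ := Pool.Agent.H24R2.JP.grow Pool.Agent.H24R2.JP.b1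
  have h0 : FF 0 ≠ 0 := by
    have := hi 0
    rw [iteratedDeriv_zero] at this
    rw [this]
    exact_mod_cast ((Pool.Agent.H24R2.JP.gamS Pool.Agent.H24R2.JP.mom).1 0).ne'
  have hfree : ∀ v : ℂ, FF (v ^ 2) = 0 → v.re ≤ 1 / 2 - b / 2 := by
    intro v hv
    rw [hF, XX_xi] at hv
    have h1 : xi (1 / 2 + v) = 0 := by
      rcases mul_eq_zero.1 hv with h2 | h2
      · norm_num at h2
      · exact h2
    have h2 := h _ h1
    simp at h2
    linarith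
  have h1 := (pos_gen hd h0 hc hK (A := 1 / 2) hb hfree k).2
  have h2 : (fun z => FF (vv (1 / 2) b z ^ 2)) = fun z => 8 * xi (vv 1 b z) := by
    ext z
    rw [hF, XX_xi]
    congr 2
    unfold vv
    push_cast
    ring
  rw [h2, lc_mul (f := fun _ => 8) (g := fun z => xi (vv 1 b z)) analyticAt_const
    (phb_analytic b 0 (mem_ball_self one_pos)) (by norm_num) (phb_ne b), lc_const, zero_add] at h1
  exact h1

/-- positivity along a set of Bohr recurrence -/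
theorem crit_pos {S : Set ℕ} (hS : BohrRecurrent S) {b : ℝ} (hb : 0 < b) (hb1 : b ≤ 1) :
    (∀ s : ℂ, 1 - b / 2 < s.re → riemannZeta s ≠ 0) ↔ ∀ n ∈ S, 1 ≤ n → 0 ≤ lam b n := by
  rw [xi_half_free hb1]
  constructor
  · intro h n _ hn
    obtain ⟨k, rfl⟩ : ∃ k, n = k + 1 := ⟨n - 1, by omega⟩
    have h1 := pos_of_free hb h k
    rw [← lam_eq hb] at h1
    exact nonneg_of_mul_nonneg_right h1 hb
  · intro h
    rw [free_iff_disc hb]
    refine free_of_pos (phb_analytic b) (phb_ne b) hS fun k hk => ?_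
    rw [← lam_eq hb]
    exact mul_nonneg hb.le (h _ hk (by omega))

/-- growth along a set of Bohr recurrence -/
theorem crit_growth {S : Set ℕ} (hS : BohrRecurrent S) {b : ℝ} (hb : 0 < b) (hb1 : b ≤ 1) :
    (∀ s : ℂ, 1 - b / 2 < s.re → riemannZeta s ≠ 0) ↔
      ∀ R : ℝ, 1 < R → ∃ C : ℝ, ∀ n ∈ S, 1 ≤ n → -(C * R ^ n) ≤ lam b n := by
  rw [xi_half_free hb1, free_iff_disc hb, growth_gen (phb_analytic b) (phb_ne b) hS]
  constructor
  · intro h R hR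
    obtain ⟨C, hC⟩ := h R hR
    refine ⟨C / b, fun n hn hn1 => ?_⟩
    obtain ⟨k, rfl⟩ : ∃ k, n = k + 1 := ⟨n - 1, by omega⟩
    have h1 := hC k hn
    rw [← lam_eq hb] at h1
    have h2 : -(C / b * R ^ (k + 1)) = -(C * R ^ (k + 1)) / b := by field_simp
    rw [h2, div_le_iff₀ hb]
    linarith
  · intro h R hR
    obtain ⟨C, hC⟩ := h R hR
    refine ⟨b * C, fun k hk => ?_⟩
    have h1 := hC (k + 1) hk (by omega)
    rw [← lam_eq hb]
    have h2 : -(b * C * R ^ (k + 1)) = b * -(C * R ^ (k + 1)) := by ring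
    rw [h2]
    exact mul_le_mul_of_nonneg_left h1 hb.le

theorem polyDense_univ : Pool.Agent.W173.OS.PolyDense Set.univ := by
  refine ⟨1, one_pos, 0, fun x hx => ⟨⌈x⌉₊, Set.mem_univ _, Nat.le_ceil x, ?_⟩⟩
  rw [sub_self, Real.rpow_zero]
  exact (Nat.ceil_lt_add_one hx).le

theorem mertens_iff {θ : ℝ} (hθ : 1 / 2 ≤ θ) :
    (∀ δ : ℝ, 0 < δ → ∃ C : ℝ, ∀ x : ℝ, 1 ≤ x → |M x| ≤ C * x ^ (θ + δ)) ↔
      ∀ s : ℂ, θ < s.re → riemannZeta s ≠ 0 := by
  have hz : (∀ s : ℂ, θ < s.re → s ≠ 1 → riemannZeta s ≠ 0) ↔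
      ∀ s : ℂ, θ < s.re → riemannZeta s ≠ 0 := by
    constructor
    · intro h s hs
      by_cases h1 : s = 1
      · rw [h1]
        exact riemannZeta_one_ne_zero
      · exact h s hs h1
    · exact fun h s hs _ => h s hs
  rw [← hz]
  have hp := Pool.Agent.W173.OS.main_half polyDense_univ (τ := 1) (Or.inl rfl) hθ
  have hm := Pool.Agent.W173.OS.main_half polyDense_univ (τ := -1) (Or.inr rfl) hθ
  constructor
  · intro h
    rw [← hp]
    intro δ hδ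
    obtain ⟨C, hC⟩ := h δ hδ
    refine ⟨max C 0, fun n _ => ?_⟩
    rcases Nat.eq_zero_or_pos n with rfl | hn
    · rw [Pool.Agent.W173.OS.Mx_zero, mul_zero]
      positivity
    · have h1 := hC n (by exact_mod_cast hn)
      rw [one_mul]
      refine (le_abs_self _).trans (h1.trans ?_)
      exact mul_le_mul_of_nonneg_right (le_max_left _ _) (by positivity)
  · intro h δ hδ
    obtain ⟨C1, h1⟩ := hp.2 h δ hδ
    obtain ⟨C2, h2⟩ := hm.2 h δ hδ
    refine ⟨max (max C1 C2) 0, fun x hx => ?_⟩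
    have hfl : M x = Pool.Agent.H295R2.Mx ((⌊x⌋₊ : ℕ) : ℝ) := by
      unfold M Pool.Agent.H295R2.Mx
      rw [Nat.floor_natCast]
      rfl
    have hle : ((⌊x⌋₊ : ℕ) : ℝ) ^ (θ + δ) ≤ x ^ (θ + δ) :=
      Real.rpow_le_rpow (Nat.cast_nonneg _) (Nat.floor_le (by linarith)) (by linarith)
    have h3 := h1 ⌊x⌋₊ (Set.mem_univ _)
    have h4 := h2 ⌊x⌋₊ (Set.mem_univ _)
    have hp0 : (0 : ℝ) ≤ ((⌊x⌋₊ : ℕ) : ℝ) ^ (θ + δ) := by positivity
    have h5 : max (max C1 C2) 0 * ((⌊x⌋₊ : ℕ) : ℝ) ^ (θ + δ) ≤ max (max C1 C2) 0 * x ^ (θ + δ) :=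
      mul_le_mul_of_nonneg_left hle (le_max_right _ _)
    have h6 : C1 * ((⌊x⌋₊ : ℕ) : ℝ) ^ (θ + δ) ≤ max (max C1 C2) 0 * ((⌊x⌋₊ : ℕ) : ℝ) ^ (θ + δ) :=
      mul_le_mul_of_nonneg_right ((le_max_left _ _).trans (le_max_left _ _)) hp0
    have h7 : C2 * ((⌊x⌋₊ : ℕ) : ℝ) ^ (θ + δ) ≤ max (max C1 C2) 0 * ((⌊x⌋₊ : ℕ) : ℝ) ^ (θ + δ) :=
      mul_le_mul_of_nonneg_right ((le_max_right _ _).trans (le_max_left _ _)) hp0
    rw [hfl, abs_le]
    constructor <;> linarith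

/-- the question -/
def PowerSaving : Prop :=
  ∃ ε : ℝ, ε < 1 / 2 ∧ ∃ C : ℝ, ∀ x : ℝ, 1 ≤ x → |M x| ≤ C * x ^ (1 / 2 + ε)

theorem saving_iff : PowerSaving ↔
    ∃ b : ℝ, 0 < b ∧ b < 1 ∧ ∀ s : ℂ, 1 - b / 2 < s.re → riemannZeta s ≠ 0 := by
  constructor
  · rintro ⟨ε, hε, C, hC⟩
    set θ : ℝ := max (1 / 2 + ε) (1 / 2) with hθ
    have h1 : 1 / 2 ≤ θ := le_max_right _ _
    have h2 : θ < 1 := max_lt (by linarith) (by norm_num)
    have hC0 : 0 ≤ C := by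
      have := (abs_nonneg _).trans (hC 1 le_rfl)
      simpa using this
    have h3 := (mertens_iff h1).1 fun δ hδ => ⟨C, fun x hx => (hC x hx).trans
      (mul_le_mul_of_nonneg_left (Real.rpow_le_rpow_of_exponent_le hx
        ((le_max_left _ _).trans (by linarith))) hC0)⟩
    exact ⟨1 - θ, by linarith, by linarith, fun s hs => h3 s (by linarith)⟩
  · rintro ⟨b, hb, hb1, h⟩
    obtain ⟨C, hC⟩ := (mertens_iff (θ := 1 - b / 2) (by linarith)).2 h (b / 4) (by linarith)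
    refine ⟨1 / 2 - b / 4, by linarith, C, fun x hx => ?_⟩
    have e : (1 / 2 + (1 / 2 - b / 4) : ℝ) = 1 - b / 2 + b / 4 := by ring
    rw [e]
    exact hC x hx

theorem saving_pos {S : Set ℕ} (hS : BohrRecurrent S) : PowerSaving ↔
    ∃ b : ℝ, 0 < b ∧ b < 1 ∧ ∀ n ∈ S, 1 ≤ n → 0 ≤ lam b n := by
  rw [saving_iff]
  constructor
  · rintro ⟨b, hb, hb1, h⟩
    exact ⟨b, hb, hb1, (crit_pos hS hb hb1.le).1 h⟩
  · rintro ⟨b, hb, hb1, h⟩
    exact ⟨b, hb, hb1, (crit_pos hS hb hb1.le).2 h⟩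

theorem saving_growth {S : Set ℕ} (hS : BohrRecurrent S) : PowerSaving ↔
    ∃ b : ℝ, 0 < b ∧ b < 1 ∧ ∀ R : ℝ, 1 < R → ∃ C : ℝ, ∀ n ∈ S, 1 ≤ n → -(C * R ^ n) ≤ lam b n := by
  rw [saving_iff]
  constructor
  · rintro ⟨b, hb, hb1, h⟩
    exact ⟨b, hb, hb1, (crit_growth hS hb hb1.le).1 h⟩
  · rintro ⟨b, hb, hb1, h⟩
    exact ⟨b, hb, hb1, (crit_growth hS hb hb1.le).2 h⟩

theorem exponent_pos {S : Set ℕ} (hS : BohrRecurrent S) {θ : ℝ} (h1 : 1 / 2 ≤ θ) (h2 : θ < 1) :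
    (∀ δ : ℝ, 0 < δ → ∃ C : ℝ, ∀ x : ℝ, 1 ≤ x → |M x| ≤ C * x ^ (θ + δ)) ↔
      ∀ n ∈ S, 1 ≤ n → 0 ≤ lam (2 - 2 * θ) n := by
  rw [mertens_iff h1, ← crit_pos hS (b := 2 - 2 * θ) (by linarith) (by linarith)]
  have e : 1 - (2 - 2 * θ) / 2 = θ := by ring
  rw [e]

end Pool.Agent.W587.LM
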