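import Pool.Agent.W587.LM.C

set_option autoImplicit false

/-!
# MP_50f415_nt: power savings for the Mertens function and Li type coefficients along thin sets

For `0 < b < 1` let `λ_n(b) = (1/(n-1)!) (d/ds)^n [(s-1+b)^(n-1) log ξ(s)]` at `s = 1`.  If `ζ` has no
zeros in the half plane `Re s > 1 - b/2` then all `λ_n(b)` are nonnegative.  We show that it is enough
to know this for `n` in an arbitrary set of Bohr recurrence (for instance the perfect `k`-th powers,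
the differences of an infinite set, a set thinner than any prescribed growth, or arbitrarily long runs),
and that one sided subexponential bounds are also enough.  So the Mertens function has a power saving
if and only if for some `b` the numbers `λ_n(b)`, `n` in one such set, are nonnegative.
-/

namespace Pool.Agent.Results.MP_50f415_nt.ThinLiHalfPlanes

/-- The Mertens function. -/
noncomputable def M (x : ℝ) : ℝ := ∑ n ∈ Finset.Icc 1 ⌊x⌋₊, ((ArithmeticFunction.moebius n : ℤ) : ℝ)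

/-- Riemann's function `ξ(s) = ½ s (s - 1) π^(-s/2) Γ(s/2) ζ(s)`, as an entire function
(`completedRiemannZeta₀ s` is the entire function `π^(-s/2) Γ(s/2) ζ(s) + 1/s + 1/(1 - s)`). -/
noncomputable def xi (s : ℂ) : ℂ := s * (s - 1) / 2 * completedRiemannZeta₀ s + 1 / 2

/-- Li type coefficients of the half plane `Re s > 1 - b/2`:
`λ_n(b) = (1/(n-1)!) (d/ds)^n [(s-1+b)^(n-1) log ξ(s)]` at `s = 1`. -/
noncomputable def li (b : ℝ) (n : ℕ) : ℝ :=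
  (iteratedDeriv n (fun s : ℂ => (s - 1 + b) ^ (n - 1) * Complex.log (xi s)) 1).re / (n - 1).factorial

/-- `S` is a set of Bohr recurrence: every finite family of points of the unit circle has powers
with arbitrarily large exponent in `S` which are simultaneously close to `1`. -/
def BohrRecurrent (S : Set ℕ) : Prop :=
  ∀ (m : ℕ) (u : Fin m → ℂ), (∀ j, ‖u j‖ = 1) → ∀ ε : ℝ, 0 < ε → ∀ N : ℕ,
    ∃ n ∈ S, N ≤ n ∧ ∀ j, ‖u j ^ n - 1‖ < ε

/-- The bound asked for in Q1. -/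
def PowerSaving : Prop :=
  ∃ ε : ℝ, ε < 1 / 2 ∧ ∃ C : ℝ, ∀ x : ℝ, 1 ≤ x → |M x| ≤ C * x ^ (1 / 2 + ε)

theorem result :
    -- the exponent of the Mertens function and the zero-free half plane, `1/2 < θ < 1`
    (∀ S : Set ℕ, BohrRecurrent S → ∀ θ : ℝ, 1 / 2 < θ → θ < 1 →
      (((∀ δ : ℝ, 0 < δ → ∃ C : ℝ, ∀ x : ℝ, 1 ≤ x → |M x| ≤ C * x ^ (θ + δ)) ↔
          ∀ n ∈ S, 1 ≤ n → 0 ≤ li (2 - 2 * θ) n) ∧
        ((∀ s : ℂ, θ < s.re → riemannZeta s ≠ 0) ↔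
          ∀ n ∈ S, 1 ≤ n → 0 ≤ li (2 - 2 * θ) n))) ∧
    -- the question
    (∀ S : Set ℕ, BohrRecurrent S →
      (PowerSaving ↔ ∃ b : ℝ, 0 < b ∧ b < 1 ∧ ∀ n ∈ S, 1 ≤ n → 0 ≤ li b n)) ∧
    -- one sided subexponential bounds suffice
    (∀ S : Set ℕ, BohrRecurrent S →
      (PowerSaving ↔ ∃ b : ℝ, 0 < b ∧ b < 1 ∧
        ∀ R : ℝ, 1 < R → ∃ C : ℝ, ∀ n ∈ S, 1 ≤ n → -(C * R ^ n) ≤ li b n)) ∧
    -- perfect powers
    (∀ k : ℕ, 1 ≤ k → (PowerSaving ↔ ∃ b : ℝ, 0 < b ∧ b < 1 ∧ ∀ m : ℕ, 1 ≤ m → 0 ≤ li b (m ^ k))) ∧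
    -- differences of an arbitrary infinite set
    (∀ A : Set ℕ, A.Infinite →
      (PowerSaving ↔ ∃ b : ℝ, 0 < b ∧ b < 1 ∧ ∀ a ∈ A, ∀ c ∈ A, a < c → 0 ≤ li b (c - a))) ∧
    -- arbitrarily thin sets
    (∀ f : ℕ → ℕ, Filter.Tendsto f Filter.atTop Filter.atTop → ∃ S : Set ℕ,
      (∀ x : ℕ, (S ∩ Set.Iic x).ncard ≤ f x) ∧
        (PowerSaving ↔ ∃ b : ℝ, 0 < b ∧ b < 1 ∧ ∀ n ∈ S, 1 ≤ n → 0 ≤ li b n)) ∧
    -- arbitrarily long runs
    (PowerSaving ↔ ∃ b : ℝ, 0 < b ∧ b < 1 ∧ ∀ L : ℕ, ∃ n : ℕ, 1 ≤ n ∧ ∀ i < L, 0 ≤ li b (n + i)) := by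
  have hpos : ∀ S : Set ℕ, BohrRecurrent S →
      (PowerSaving ↔ ∃ b : ℝ, 0 < b ∧ b < 1 ∧ ∀ n ∈ S, 1 ≤ n → 0 ≤ li b n) :=
    fun S hS => Pool.Agent.W587.LM.saving_pos (S := S) hS
  refine ⟨?_, hpos, fun S hS => Pool.Agent.W587.LM.saving_growth (S := S) hS, ?_, ?_, ?_, ?_⟩
  · intro S hS θ h1 h2
    have h3 : (∀ δ : ℝ, 0 < δ → ∃ C : ℝ, ∀ x : ℝ, 1 ≤ x → |M x| ≤ C * x ^ (θ + δ)) ↔
        ∀ n ∈ S, 1 ≤ n → 0 ≤ li (2 - 2 * θ) n :=
      Pool.Agent.W587.LM.exponent_pos (S := S) hS h1.le h2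
    exact ⟨h3, (Pool.Agent.W587.LM.mertens_iff h1.le).symm.trans h3⟩
  · intro k hk
    rw [hpos _ (Pool.Agent.W587.Li.pow_rec k hk)]
    constructor
    · rintro ⟨b, hb, hb1, h⟩
      exact ⟨b, hb, hb1, fun m hm => h (m ^ k) ⟨m, hm, rfl⟩ (Nat.one_le_pow _ _ hm)⟩
    · rintro ⟨b, hb, hb1, h⟩
      refine ⟨b, hb, hb1, ?_⟩
      rintro n ⟨m, hm, rfl⟩ _
      exact h m hm
  · intro A hA
    rw [hpos _ (Pool.Agent.W587.Li.diffs_rec A hA)]
    constructor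
    · rintro ⟨b, hb, hb1, h⟩
      refine ⟨b, hb, hb1, fun a ha c hc hac => ?_⟩
      exact h (c - a) ⟨by omega, a, ha, by rwa [show a + (c - a) = c by omega]⟩ (by omega)
    · rintro ⟨b, hb, hb1, h⟩
      refine ⟨b, hb, hb1, ?_⟩
      rintro n ⟨hn, a, ha, hc⟩ _
      have := h a ha (a + n) hc (by omega)
      rwa [show a + n - a = n by omega] at this
  · intro f hf
    obtain ⟨S, hS, hc⟩ := Pool.Agent.W587.Li.thin f hf
    exact ⟨S, hc, hpos S hS⟩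
  · constructor
    · intro h
      obtain ⟨b, hb, hb1, h1⟩ := (hpos Set.univ
        (Pool.Agent.W587.Li.thick_rec _ fun L => ⟨0, fun i _ => Set.mem_univ _⟩)).1 h
      exact ⟨b, hb, hb1, fun L => ⟨1, le_rfl, fun i _ => h1 (1 + i) (Set.mem_univ _) (by omega)⟩⟩
    · rintro ⟨b, hb, hb1, h⟩
      have h1 : BohrRecurrent {n | 1 ≤ n ∧ 0 ≤ li b n} := by
        refine Pool.Agent.W587.Li.thick_rec _ fun L => ?_
        obtain ⟨n, hn, hL⟩ := h L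
        exact ⟨n, fun i hi => ⟨by omega, hL i hi⟩⟩
      exact (hpos _ h1).2 ⟨b, hb, hb1, fun n hn _ => hn.2⟩

end Pool.Agent.Results.MP_50f415_nt.ThinLiHalfPlanes
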